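import Pool.Agent.J4H73.YO.Sl

set_option autoImplicit false
set_option linter.unusedSectionVars false

/-! # Slices of power series in the variables `z, y` (for the job LM of helper50) -/

namespace Pool.Agent.J4H73.YO

open MvPowerSeries Finset.HasAntidiagonal

variable {τ : Type}

theorem comap_some (l : ℕ) (y : τ →₀ ℕ) (h) :
    (y.optionElim l).comapDomain (some : τ → Option τ) h = y := by
  ext i
  rw [Finsupp.comapDomain_apply, Finsupp.optionElim_apply_some]

theorem map_some (y : τ →₀ ℕ) : y.mapDomain (some : τ → Option τ) = y.optionElim 0 := by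
  ext i
  rcases i with _ | i
  · rw [Finsupp.mapDomain_of_notMem_range _ _ (by rintro ⟨j, hj⟩; exact Option.some_ne_none j hj),
      Finsupp.optionElim_apply_none]
  · rw [Finsupp.mapDomain_apply (Option.some_injective _), Finsupp.optionElim_apply_some]

/-- the coefficient of `z ^ l` -/
noncomputable def slo (l : ℕ) : MvPowerSeries (Option τ) ℂ →ₗ[ℂ] MvPowerSeries τ ℂ where
  toFun q := fun y => coeff (y.optionElim l) q
  map_add' _ _ := by
    funext y
    exact map_add _ _ _
  map_smul' c q := by
    funext y
    exact map_smul (coeff (y.optionElim l)) c q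

theorem coeff_slo (l : ℕ) (y : τ →₀ ℕ) (q : MvPowerSeries (Option τ) ℂ) :
    coeff y (slo l q) = coeff (y.optionElim l) q := rfl

theorem ext_slo {q q' : MvPowerSeries (Option τ) ℂ} (h : ∀ l, slo l q = slo l q') : q = q' := by
  ext n
  rw [← Finsupp.optionElim_some n, ← coeff_slo, h, coeff_slo]

theorem slo_some (l : ℕ) (g : MvPowerSeries τ ℂ) (q : MvPowerSeries (Option τ) ℂ)
    [Filter.TendstoCofinite (some : τ → Option τ)] :
    slo l (rename some g * q) = g * slo l q := by
  classical
  ext y
  rw [coeff_slo, coeff_rename_mul _ (Option.some_injective _), coeff_mul, comap_some]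
  refine Finset.sum_congr rfl fun p hp => ?_
  rw [coeff_slo]
  have h1 : (y.optionElim l : Option τ →₀ ℕ) - p.1.mapDomain some = p.2.optionElim l := by
    rw [map_some]
    have h2 := mem_antidiagonal.1 hp
    ext i
    rcases i with _ | i
    · rw [Finsupp.tsub_apply, Finsupp.optionElim_apply_none, Finsupp.optionElim_apply_none,
        Finsupp.optionElim_apply_none]
      rfl
    · rw [Finsupp.tsub_apply, Finsupp.optionElim_apply_some, Finsupp.optionElim_apply_some,
        Finsupp.optionElim_apply_some, ← h2, Finsupp.add_apply, Nat.add_sub_cancel_left]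
  rw [h1]

theorem slo_pow (l a : ℕ) (q : MvPowerSeries (Option τ) ℂ) :
    slo l (X none ^ a * q) = if a ≤ l then slo (l - a) q else 0 := by
  classical
  ext y
  rw [coeff_slo, X_pow_eq, coeff_monomial_mul]
  have h1 : Finsupp.single none a ≤ y.optionElim l ↔ a ≤ l := by
    constructor
    · intro h
      have h2 := h none
      rw [Finsupp.single_eq_same, Finsupp.optionElim_apply_none] at h2
      exact h2
    · intro h i
      rcases i with _ | i
      · rw [Finsupp.single_eq_same, Finsupp.optionElim_apply_none]
        exact h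
      · rw [Finsupp.single_apply, if_neg (by simp)]
        exact Nat.zero_le _
  by_cases ha : a ≤ l
  · rw [if_pos (h1.2 ha), if_pos ha, one_mul, coeff_slo]
    congr 2
    ext i
    rcases i with _ | i
    · rw [Finsupp.tsub_apply, Finsupp.single_eq_same, Finsupp.optionElim_apply_none,
        Finsupp.optionElim_apply_none]
    · rw [Finsupp.tsub_apply, Finsupp.optionElim_apply_some, Finsupp.optionElim_apply_some,
        Finsupp.single_apply, if_neg (by simp), Nat.sub_zero]
  · rw [if_neg (fun h => ha (h1.1 h)), if_neg ha, coeff_zero]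

theorem slo_pderiv_some (l : ℕ) (j : τ) (q : MvPowerSeries (Option τ) ℂ) :
    slo l (pderiv ℂ (some j) q) = pderiv ℂ j (slo l q) := by
  ext y
  rw [coeff_slo, coeff_pderiv, coeff_pderiv, coeff_slo, Finsupp.optionElim_apply_some]
  congr 3
  ext i
  classical
  rcases i with _ | i
  · rw [Finsupp.add_apply, Finsupp.optionElim_apply_none, Finsupp.optionElim_apply_none,
      Finsupp.single_apply, if_neg (by simp), add_zero]
  · rw [Finsupp.add_apply, Finsupp.optionElim_apply_some, Finsupp.optionElim_apply_some,
      Finsupp.add_apply, Finsupp.single_apply, Finsupp.single_apply]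
    simp only [Option.some.injEq]

theorem slo_pderiv_none (l : ℕ) (q : MvPowerSeries (Option τ) ℂ) :
    slo l (pderiv ℂ none q) = ((l : ℂ) + 1) • slo (l + 1) q := by
  ext y
  rw [coeff_slo, coeff_pderiv, map_smul, coeff_slo, Finsupp.optionElim_apply_none, smul_eq_mul,
    mul_comm]
  congr 3
  ext i
  classical
  rcases i with _ | i
  · rw [Finsupp.add_apply, Finsupp.optionElim_apply_none, Finsupp.optionElim_apply_none,
      Finsupp.single_eq_same]
  · rw [Finsupp.add_apply, Finsupp.optionElim_apply_some, Finsupp.optionElim_apply_some,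
      Finsupp.single_apply, if_neg (by simp), add_zero]

theorem slo_one (l : ℕ) : slo l (1 : MvPowerSeries (Option τ) ℂ) = C (if l = 0 then 1 else 0) := by
  classical
  ext y
  rw [coeff_slo, coeff_one, coeff_C]
  have h4 : y.optionElim l = (0 : Option τ →₀ ℕ) ↔ y = 0 ∧ l = 0 := by
    constructor
    · intro h
      constructor
      · ext i
        have h1 := DFunLike.congr_fun h (some i)
        rwa [Finsupp.optionElim_apply_some] at h1
      · have h1 := DFunLike.congr_fun h none
        rwa [Finsupp.optionElim_apply_none] at h1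
    · rintro ⟨rfl, rfl⟩
      rw [Finsupp.optionElim_zero, Finsupp.single_zero]
  by_cases hy : y = 0
  · rw [if_pos hy]
    exact if_congr (h4.trans (and_iff_right hy)) rfl rfl
  · rw [if_neg hy, if_neg (fun h => hy (h4.1 h).1)]

theorem slo_rename (l : ℕ) (g : MvPowerSeries τ ℂ) [Filter.TendstoCofinite (some : τ → Option τ)] :
    slo l (rename some g) = C (if l = 0 then 1 else 0) * g := by
  rw [← mul_one (rename some g), slo_some, slo_one, mul_comm]

theorem pderiv_rename_some (i : τ) (g : MvPowerSeries τ ℂ)
    [Filter.TendstoCofinite (some : τ → Option τ)] :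
    pderiv ℂ (some i) (rename some g) = rename some (pderiv ℂ i g) := by
  refine ext_slo fun l => ?_
  rw [slo_pderiv_some, slo_rename, slo_rename, Derivation.leibniz, pderiv_C, smul_zero, add_zero,
    smul_eq_mul]

theorem pderiv_rename_none (g : MvPowerSeries τ ℂ)
    [Filter.TendstoCofinite (some : τ → Option τ)] :
    pderiv ℂ none (rename (some : τ → Option τ) g) = 0 := by
  refine ext_slo fun l => ?_
  rw [slo_pderiv_none, slo_rename, if_neg (Nat.succ_ne_zero l), map_zero, map_zero, zero_mul,
    smul_zero]

end Pool.Agent.J4H73.YO
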