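import Pool.Agent.J4H50.YO.Stm
import Pool.Agent.J4H73.YO.Lm0

set_option autoImplicit false
set_option linter.unusedSectionVars false

/-! # The local model (job LM of helper50) -/

namespace Pool.Agent.J4H73.YO

open MvPowerSeries Pool.Agent.J4H50.YO

/-- `s (s - 1) ⋯ (s - k + 1)` -/
noncomputable def ff (s : ℂ) (k : ℕ) : ℂ := ∏ i ∈ Finset.range k, (s - i)

theorem ff_succ (s : ℂ) (k : ℕ) : ff s (k + 1) = ff s k * (s - k) := Finset.prod_range_succ _ _

theorem ff_ne {s : ℂ} (hs : ∀ m : ℕ, s ≠ m) (k : ℕ) : ff s k ≠ 0 :=
  Finset.prod_ne_zero_iff.2 fun i _ => sub_ne_zero.2 (hs i)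

/-- the function `p` on the integers with `p (u + 1) = (a - u) p u`, `p 0 = 1` -/
theorem exists_p (a : ℂ) (ha : ∀ i : ℕ, a + (i + 1) ≠ 0) :
    ∃ p : ℤ → ℂ, p 0 = 1 ∧ ∀ u, p (u + 1) = (a - u) * p u := by
  refine ⟨fun u => match u with
    | Int.ofNat t => ff a t
    | Int.negSucc t => (∏ i ∈ Finset.range (t + 1), (a + (i + 1)))⁻¹, ?_, ?_⟩
  · change ff a 0 = 1
    exact Finset.prod_range_zero _
  · intro u
    rcases u with t | t
    · change ff a (t + 1) = (a - ((t : ℕ) : ℤ)) * ff a t
      rw [ff_succ, mul_comm]
      norm_cast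
    · rcases t with _ | t
      · change ff a 0 = (a - ((Int.negSucc 0 : ℤ) : ℂ)) *
          (∏ i ∈ Finset.range (0 + 1), (a + ((i : ℕ) + 1 : ℂ)))⁻¹
        have h1 := ha 0
        rw [Nat.cast_zero] at h1
        rw [Finset.prod_range_succ, Finset.prod_range_zero, one_mul, Nat.cast_zero]
        have h2 : (a - ((Int.negSucc 0 : ℤ) : ℂ)) = a + (0 + 1) := by
          push_cast [Int.negSucc_eq]
          ring
        rw [h2, mul_inv_cancel₀ h1]
        exact Finset.prod_range_zero _
      · have h0 : (Int.negSucc (t + 1) + 1 : ℤ) = Int.negSucc t := by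
          rw [Int.negSucc_eq, Int.negSucc_eq]
          push_cast
          ring
        rw [h0]
        change (∏ i ∈ Finset.range (t + 1), (a + ((i : ℕ) + 1 : ℂ)))⁻¹ =
          (a - ((Int.negSucc (t + 1) : ℤ) : ℂ)) *
          (∏ i ∈ Finset.range (t + 1 + 1), (a + ((i : ℕ) + 1 : ℂ)))⁻¹
        have h1 := ha (t + 1)
        have h2 : (a - ((Int.negSucc (t + 1) : ℤ) : ℂ)) = a + (((t + 1 : ℕ) : ℂ) + 1) := by
          rw [Int.negSucc_eq]
          push_cast
          ring
        rw [h2, Finset.prod_range_succ _ (t + 1), mul_inv, mul_left_comm, mul_inv_cancel₀ h1, mul_one]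

theorem Sing.cc' {σ : Type} {f : MvPowerSeries σ ℂ} (h : Sing f) : constantCoeff f = 0 := by
  rw [← coeff_zero_eq_constantCoeff_apply]
  exact h 0 (by rw [map_zero]; exact Nat.zero_le _)

theorem Sing.pd' {σ : Type} {f : MvPowerSeries σ ℂ} (h : Sing f) (i : σ) :
    constantCoeff (pderiv ℂ i f) = 0 := by
  rw [← coeff_zero_eq_constantCoeff_apply, coeff_pderiv, zero_add, h, zero_mul]
  rw [Finsupp.degree_single]

theorem t_LM : S_LM := by
  intro τ _ g S s d k n hd hk hn hS hs hns hg ⟨β, hβ, hβ0⟩
  have hk0 : (k : ℂ) ≠ 0 := Nat.cast_ne_zero.2 (by omega)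
  -- the coefficients
  obtain ⟨p, hp0, hp⟩ := exists_p (s - S) (by
    intro i h
    apply hns (i + 1) (by omega)
    have h1 : (k : ℂ) * (s - S + (i + 1)) = 0 := by rw [h, mul_zero]
    have h2 : (k : ℂ) * (s - S + (i + 1)) = k * s - k * S + k * (i + 1) := by ring
    rw [h2, hS] at h1
    push_cast at h1 ⊢
    linear_combination -h1)
  let c : ℕ → ℕ → ℂ := fun j m => ff S m * p ((j : ℤ) - m) / ff s j
  have c3 : ∀ j m, (s - j) * c (j + 1) m = (s - j - S + m) * c j m := by
    intro j m
    have h1 : ((j + 1 : ℕ) : ℤ) - m = ((j : ℤ) - m) + 1 := by push_cast; ring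
    have h2 : s - j ≠ 0 := sub_ne_zero.2 (hs j)
    have h3 := ff_ne hs j
    change (s - j) * (ff S m * p (((j + 1 : ℕ) : ℤ) - m) / ff s (j + 1)) =
      (s - j - S + m) * (ff S m * p ((j : ℤ) - m) / ff s j)
    rw [h1, hp, ff_succ]
    field_simp
    push_cast
    ring
  have c2 : ∀ j m, (s - j) * c (j + 1) (m + 1) = (S - m) * c j m := by
    intro j m
    have h1 : ((j + 1 : ℕ) : ℤ) - (m + 1 : ℕ) = (j : ℤ) - m := by push_cast; ring
    have h2 : s - j ≠ 0 := sub_ne_zero.2 (hs j)
    have h3 := ff_ne hs j
    change (s - j) * (ff S (m + 1) * p (((j + 1 : ℕ) : ℤ) - (m + 1 : ℕ)) / ff s (j + 1)) =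
      (S - m) * (ff S m * p ((j : ℤ) - m) / ff s j)
    rw [h1, ff_succ, ff_succ]
    field_simp
  have c1 : ∀ j m, c (j + 1) (m + 1) + c (j + 1) m = c j m := by
    intro j m
    have h2 : s - j ≠ 0 := sub_ne_zero.2 (hs j)
    apply mul_left_cancel₀ h2
    rw [mul_add, c2, c3]
    ring
  have c00 : c 0 0 = 1 := by
    change ff S 0 * p (((0 : ℕ) : ℤ) - (0 : ℕ)) / ff s 0 = 1
    have h1 : ∀ x, ff x 0 = 1 := fun x => Finset.prod_range_zero _
    rw [h1, h1, sub_self, hp0]
    norm_num
  -- the functional
  let L : ℕ → ℕ := fun j => (n - 1) + (d + k) * j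
  have hL : ∀ j, L (j + 1) = L j + d + k := by
    intro j
    change (n - 1) + (d + k) * (j + 1) = (n - 1) + (d + k) * j + d + k
    ring
  let V : ℕ → MvPowerSeries (Option τ) ℂ →ₗ[ℂ] ℂ := fun j =>
    ∑ m ∈ Finset.range (L j + 1), if k * m ≤ L j then c j m • (β m).comp (slo (L j - k * m)) else 0
  have hV : ∀ (j : ℕ) (q : MvPowerSeries (Option τ) ℂ) (K : ℕ), L j + 1 ≤ K →
      V j q = ∑ m ∈ Finset.range K, c j m *
        (if k * m ≤ L j then β m (slo (L j - k * m) q) else 0) := by
    intro j q K hK
    change (∑ m ∈ Finset.range (L j + 1), if k * m ≤ L j then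
      c j m • (β m).comp (slo (L j - k * m)) else 0 : MvPowerSeries (Option τ) ℂ →ₗ[ℂ] ℂ) q = _
    rw [LinearMap.sum_apply]
    have h1 : Finset.range (L j + 1) ⊆ Finset.range K := Finset.range_subset_range.2 hK
    rw [← Finset.sum_subset h1]
    · refine Finset.sum_congr rfl fun m _ => ?_
      split_ifs
      · rfl
      · rw [mul_zero]
        rfl
    · intro m _ hm
      rw [Finset.mem_range, not_lt] at hm
      rw [if_neg, mul_zero]
      intro h2
      have h3 : m ≤ k * m := Nat.le_mul_of_pos_left m hk
      omega
  have hKm : ∀ {j m : ℕ}, L j < m → ¬ k * m ≤ L j := by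
    intro j m h h2
    have h3 : m ≤ k * m := Nat.le_mul_of_pos_left m hk
    omega
  refine ⟨V, ⟨?_, ?_, ?_⟩, ?_⟩
  · -- continuity
    intro j
    choose N hN using hβ.cts
    refine ⟨L j + ∑ m ∈ Finset.range (L j + 1), N m, fun q hq => ?_⟩
    rw [hV j q _ le_rfl]
    refine Finset.sum_eq_zero fun m hm => ?_
    split_ifs with h1
    · rw [hN, mul_zero]
      intro y hy
      rw [coeff_slo]
      apply hq
      have h2 : (y.optionElim (L j - k * m)).degree = (L j - k * m) + y.degree := by
        have h3 : y.optionElim (L j - k * m) = Finsupp.single none (L j - k * m) +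
            y.mapDomain some := by
          rw [map_some]
          ext i
          rcases i with _ | i
          · rw [Finsupp.add_apply, Finsupp.optionElim_apply_none, Finsupp.optionElim_apply_none,
              Finsupp.single_eq_same, add_zero]
          · rw [Finsupp.add_apply, Finsupp.optionElim_apply_some, Finsupp.optionElim_apply_some,
              Finsupp.single_apply, if_neg (by simp), zero_add]
        rw [h3, map_add, Finsupp.degree_mapDomain, Finsupp.degree_single]
      have h4 : N m ≤ ∑ m ∈ Finset.range (L j + 1), N m :=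
        Finset.single_le_sum (f := N) (fun _ _ => Nat.zero_le _) hm
      rw [h2]
      omega
    · rw [mul_zero]
  · -- shift
    intro j q
    set K := L (j + 1) + 1 with hK
    set A : ℕ → ℂ := fun m => if k * m ≤ L j then β m (slo (L j - k * m) q) else 0 with hA
    have hA0 : ∀ m, L j < m → A m = 0 := fun m hm => if_neg (hKm hm)
    have hsl : ∀ l, slo l (X none ^ d * (rename some g + X none ^ k) * q) =
        if d ≤ l then g * slo (l - d) q + (if k ≤ l - d then slo (l - d - k) q else 0) else 0 := by
      intro l
      rw [mul_assoc, slo_pow, add_mul, map_add, slo_some, slo_pow]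
    rw [hV (j + 1) _ (K + 1) (by omega), hV j q K (by rw [hK, hL]; omega),
      Finset.sum_range_succ']
    have t0 : (if k * 0 ≤ L (j + 1) then β 0 (slo (L (j + 1) - k * 0)
        (X none ^ d * (rename some g + X none ^ k) * q)) else 0) = A 0 := by
      rw [mul_zero, if_pos (Nat.zero_le _), Nat.sub_zero, hsl, hL, if_pos (by omega),
        if_pos (by omega), map_add, hβ0 (g * _), map_mul, Sing.cc' hg, zero_mul, zero_add]
      change _ = if k * 0 ≤ L j then β 0 (slo (L j - k * 0) q) else 0
      rw [mul_zero, if_pos (Nat.zero_le _), Nat.sub_zero]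
      congr 3
      omega
    have tm : ∀ m, (if k * (m + 1) ≤ L (j + 1) then β (m + 1) (slo (L (j + 1) - k * (m + 1))
        (X none ^ d * (rename some g + X none ^ k) * q)) else 0) = A m + A (m + 1) := by
      intro m
      have hkm : k * (m + 1) = k * m + k := by ring
      change _ = (if k * m ≤ L j then β m (slo (L j - k * m) q) else 0) +
        (if k * (m + 1) ≤ L j then β (m + 1) (slo (L j - k * (m + 1)) q) else 0)
      rw [hL, hkm]
      by_cases h1 : k * m ≤ L j
      · rw [if_pos (by omega), hsl, if_pos (by omega), if_pos h1, map_add, hβ.sft]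
        have e1 : L j + d + k - (k * m + k) - d = L j - k * m := by omega
        rw [e1]
        congr 1
        by_cases h2 : k * m + k ≤ L j
        · rw [if_pos (by omega), if_pos h2]
          congr 3
          omega
        · rw [if_neg (by omega), if_neg h2, map_zero]
      · rw [if_neg h1, if_neg (show ¬ k * m + k ≤ L j by omega), add_zero]
        split_ifs with h2
        · rw [hsl, if_neg (by omega), map_zero]
        · rfl
    rw [t0, Finset.sum_congr rfl fun m _ => by rw [tm m]]
    have h1 : ∑ m ∈ Finset.range K, c j m * A m =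
        ∑ m ∈ Finset.range K, c (j + 1) (m + 1) * A m +
        ∑ m ∈ Finset.range (K + 1), c (j + 1) m * A m := by
      rw [Finset.sum_range_succ _ K, hA0 K (by rw [hK, hL]; omega), mul_zero, add_zero,
        ← Finset.sum_add_distrib]
      refine Finset.sum_congr rfl fun m _ => ?_
      rw [← add_mul, c1]
    change _ = ∑ m ∈ Finset.range K, c j m * A m
    rw [h1, Finset.sum_range_succ' (fun m => c (j + 1) m * A m) K, ← add_assoc,
      ← Finset.sum_add_distrib]
    congr 1
    refine Finset.sum_congr rfl fun m _ => ?_
    rw [mul_add]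
  · -- closed
    intro j i q
    rcases i with _ | i
    · -- the variable `z`
      set K := L (j + 1) + 1 with hK
      set B : ℕ → ℂ := fun m => if k * m ≤ L j + 1 then β m (slo (L j + 1 - k * m) q) else 0 with hB
      have hLn : ((L j : ℕ) : ℂ) + 1 = n + (d + k) * j := by
        have h1 : L j + 1 = n + (d + k) * j := by
          change (n - 1) + (d + k) * j + 1 = n + (d + k) * j
          omega
        rw [← Nat.cast_one, ← Nat.cast_add, h1]
        push_cast
        ring
      have e1 : V j (pderiv ℂ none q) = ∑ m ∈ Finset.range K,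
          (c j m * (((L j : ℕ) : ℂ) + 1 - k * m)) * B m := by
        rw [hV j _ K (by rw [hK, hL]; omega)]
        refine Finset.sum_congr rfl fun m _ => ?_
        change _ = _ * (if k * m ≤ L j + 1 then β m (slo (L j + 1 - k * m) q) else 0)
        by_cases h1 : k * m ≤ L j
        · rw [if_pos h1, if_pos (by omega), slo_pderiv_none, map_smul, smul_eq_mul]
          have h2 : L j - k * m + 1 = L j + 1 - k * m := by omega
          rw [h2, Nat.cast_sub h1]
          push_cast
          ring
        · rw [if_neg h1, mul_zero]
          by_cases h2 : k * m ≤ L j + 1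
          · have h3 : k * m = L j + 1 := by omega
            have h4 : (k : ℂ) * m = (L j : ℕ) + 1 := by
              rw [← Nat.cast_mul, h3]
              push_cast
              ring
            rw [h4, sub_self, mul_zero, zero_mul]
          · rw [if_neg h2, mul_zero]
      have e2 : V (j + 1) (pderiv ℂ none (X none ^ d * (rename some g + X none ^ k)) * q) =
          ∑ m ∈ Finset.range K, (d * c (j + 1) (m + 1) + (d + k) * c (j + 1) m) * B m := by
        obtain ⟨d', rfl⟩ : ∃ d', d = d' + 1 := ⟨d - 1, by omega⟩
        obtain ⟨k', rfl⟩ : ∃ k', k = k' + 1 := ⟨k - 1, by omega⟩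
        have h0 : pderiv ℂ none (X none ^ (d' + 1) * (rename some g + X none ^ (k' + 1)) :
            MvPowerSeries (Option τ) ℂ) * q =
            ((d' + 1 : ℕ) : ℂ) • (X none ^ d' * (rename some g * q)) +
            (((d' + 1 + (k' + 1) : ℕ)) : ℂ) • (X none ^ (d' + (k' + 1)) * q) := by
          rw [Derivation.leibniz, map_add, pderiv_rename_none, Derivation.leibniz_pow,
            Derivation.leibniz_pow, pderiv_X_self]
          simp only [smul_eq_mul, nsmul_eq_mul, Nat.add_sub_cancel, zero_add, mul_one,
            Algebra.smul_def]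
          simp only [map_natCast]
          push_cast
          ring
        rw [h0, map_add, map_smul, map_smul, smul_eq_mul, smul_eq_mul]
        have h1 : V (j + 1) (X none ^ d' * (rename some g * q)) =
            ∑ m ∈ Finset.range K, c (j + 1) (m + 1) * B m := by
          rw [hV (j + 1) _ (K + 1) (by omega), Finset.sum_range_succ']
          have t0 : (if (k' + 1) * 0 ≤ L (j + 1) then β 0 (slo (L (j + 1) - (k' + 1) * 0)
              (X none ^ d' * (rename some g * q))) else 0) = 0 := by
            rw [mul_zero, if_pos (Nat.zero_le _), slo_pow]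
            split_ifs
            · rw [slo_some, hβ0, map_mul, Sing.cc' hg, zero_mul]
            · rw [map_zero]
          rw [t0, mul_zero, add_zero]
          refine Finset.sum_congr rfl fun m _ => ?_
          congr 1
          change _ = if (k' + 1) * m ≤ L j + 1 then β m (slo (L j + 1 - (k' + 1) * m) q) else 0
          have hkm : (k' + 1) * (m + 1) = (k' + 1) * m + (k' + 1) := by ring
          rw [hL, hkm]
          by_cases h2 : (k' + 1) * m ≤ L j + 1
          · rw [if_pos (by omega), if_pos h2, slo_pow, if_pos (by omega), slo_some, hβ.sft]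
            congr 3
            omega
          · rw [if_neg h2]
            split_ifs with h3
            · rw [slo_pow, if_neg (by omega), map_zero]
            · rfl
        have h2 : V (j + 1) (X none ^ (d' + (k' + 1)) * q) =
            ∑ m ∈ Finset.range K, c (j + 1) m * B m := by
          rw [hV (j + 1) _ K le_rfl]
          refine Finset.sum_congr rfl fun m _ => ?_
          congr 1
          change _ = if (k' + 1) * m ≤ L j + 1 then β m (slo (L j + 1 - (k' + 1) * m) q) else 0
          rw [hL]
          by_cases h2 : (k' + 1) * m ≤ L j + 1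
          · rw [if_pos (by omega), if_pos h2, slo_pow, if_pos (by omega)]
            congr 3
            omega
          · rw [if_neg h2]
            split_ifs with h3
            · rw [slo_pow, if_neg (by omega), map_zero]
            · rfl
        rw [h1, h2, Finset.mul_sum, Finset.mul_sum, ← Finset.sum_add_distrib]
        refine Finset.sum_congr rfl fun m _ => ?_
        push_cast
        ring
      rw [e1, e2, Finset.mul_sum, ← Finset.sum_add_distrib]
      refine Finset.sum_eq_zero fun m _ => ?_
      have h2 := c2 j m
      have h3 := c3 j m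
      have h4 : (n : ℂ) + (d + k) * s - k * S = 0 := by
        rw [hS]
        push_cast
        ring
      rw [hLn]
      linear_combination (d * B m) * h2 + ((d + k) * B m) * h3 + (c j m * B m) * h4
    · -- the variables `y`
      set K := L (j + 1) + 1 with hK
      have h0 : pderiv ℂ (some i) (X none ^ d * (rename some g + X none ^ k) :
          MvPowerSeries (Option τ) ℂ) * q = X none ^ d * (rename some (pderiv ℂ i g) * q) := by
        rw [Derivation.leibniz, map_add, pderiv_rename_some, Derivation.leibniz_pow,
          Derivation.leibniz_pow, pderiv_X_of_ne (by simp)]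
        simp only [smul_zero, add_zero, smul_eq_mul]
        ring
      rw [h0]
      set A : ℕ → ℂ := fun m => if k * m ≤ L j then
        β (m + 1) (pderiv ℂ i g * slo (L j - k * m) q) else 0 with hA
      have e1 : V j (pderiv ℂ (some i) q) = ∑ m ∈ Finset.range K, -(c j m * (S - m)) * A m := by
        rw [hV j _ K (by rw [hK, hL]; omega)]
        refine Finset.sum_congr rfl fun m _ => ?_
        change _ = _ * (if k * m ≤ L j then
          β (m + 1) (pderiv ℂ i g * slo (L j - k * m) q) else 0)
        split_ifs with h1
        · rw [slo_pderiv_some, eq_neg_of_add_eq_zero_left (hβ.clo m i _)]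
          ring
        · rw [mul_zero, mul_zero]
      have e2 : V (j + 1) (X none ^ d * (rename some (pderiv ℂ i g) * q)) =
          ∑ m ∈ Finset.range K, c (j + 1) (m + 1) * A m := by
        rw [hV (j + 1) _ (K + 1) (by omega), Finset.sum_range_succ']
        have t0 : (if k * 0 ≤ L (j + 1) then β 0 (slo (L (j + 1) - k * 0)
            (X none ^ d * (rename some (pderiv ℂ i g) * q))) else 0) = 0 := by
          rw [mul_zero, if_pos (Nat.zero_le _), slo_pow]
          split_ifs
          · rw [slo_some, hβ0, map_mul, Sing.pd' hg, zero_mul]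
          · rw [map_zero]
        rw [t0, mul_zero, add_zero]
        refine Finset.sum_congr rfl fun m _ => ?_
        congr 1
        change _ = if k * m ≤ L j then
          β (m + 1) (pderiv ℂ i g * slo (L j - k * m) q) else 0
        have hkm : k * (m + 1) = k * m + k := by ring
        rw [hL, hkm]
        by_cases h2 : k * m ≤ L j
        · rw [if_pos (by omega), if_pos h2, slo_pow, if_pos (by omega), slo_some]
          congr 4
          omega
        · rw [if_neg h2]
          split_ifs with h3
          · rw [slo_pow, if_neg (by omega), map_zero]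
          · rfl
      rw [e1, e2, Finset.mul_sum, ← Finset.sum_add_distrib]
      refine Finset.sum_eq_zero fun m _ => ?_
      have h2 := c2 j m
      linear_combination (A m) * h2
  · -- the value
    intro q
    rw [hV 0 _ _ le_rfl, Finset.sum_eq_single 0]
    · have hL0 : L 0 = n - 1 := by
        change (n - 1) + (d + k) * 0 = n - 1
        ring
      rw [c00, one_mul, mul_zero, if_pos (Nat.zero_le _), Nat.sub_zero, hL0, slo_pow,
        if_pos le_rfl, Nat.sub_self, hβ0, ← coeff_zero_eq_constantCoeff_apply, coeff_slo,
        Finsupp.optionElim_zero, Finsupp.single_zero, coeff_zero_eq_constantCoeff_apply]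
    · intro m hm hm0
      have hL0 : L 0 = n - 1 := by
        change (n - 1) + (d + k) * 0 = n - 1
        ring
      have h1 : 1 ≤ k * m := Nat.mul_pos hk (Nat.pos_of_ne_zero hm0)
      split_ifs with h2
      · rw [slo_pow, if_neg (by omega), map_zero, mul_zero]
      · rw [mul_zero]
    · intro h
      exact absurd (Finset.mem_range.2 (Nat.succ_pos _)) h

end Pool.Agent.J4H73.YO
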