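import Pool.Agent.J4H50.YO.Stm
import Pool.Agent.W574.SM.Chain

set_option autoImplicit false
set_option linter.unusedSectionVars false

/-! # Pull back of de Rham functionals (job PU of helper50) -/

namespace Pool.Agent.J4H73.YO

open MvPowerSeries Pool.Agent.J4H50.YO

section Piola

variable {σ L : Type} [Fintype σ] [DecidableEq σ] [CommRing L] [Algebra ℂ L]

theorem deriv_prod (d : Derivation ℂ L L) (s : Finset σ) (g : σ → L) :
    d (∏ k ∈ s, g k) = ∑ k ∈ s, d (g k) * ∏ l ∈ s.erase k, g l := by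
  induction s using Finset.induction_on with
  | empty => simp
  | insert a s ha ih =>
    rw [Finset.prod_insert ha, Derivation.leibniz, ih, Finset.sum_insert ha,
      Finset.erase_insert ha, smul_eq_mul, smul_eq_mul, Finset.mul_sum, add_comm]
    congr 1
    · ring
    · refine Finset.sum_congr rfl fun k hk => ?_
      have hka : k ≠ a := fun h => ha (h ▸ hk)
      rw [Finset.erase_insert_of_ne (fun h => hka h.symm), Finset.prod_insert]
      · ring
      · intro h; exact ha (Finset.mem_of_mem_erase h)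

/-- the terms of the determinant without the factor from the row `i0`, times `e` -/
noncomputable def aa (θ : σ → Derivation ℂ L L) (i0 : σ) (η : σ → L) (e : L) (π : Equiv.Perm σ) : L :=
  (Equiv.Perm.sign π : ℤ) • (e * ∏ k ∈ Finset.univ.erase i0, θ (π k) (η k))

/-- The determinant of the matrix of derivatives is a sum of derivatives. -/
theorem det_eq (θ : σ → Derivation ℂ L L) (hcomm : ∀ s t u, θ s (θ t u) = θ t (θ s u))
    (i0 : σ) (η : σ → L) : Matrix.det (Matrix.of fun t k => θ t (η k)) =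
      ∑ π : Equiv.Perm σ, θ (π i0) (aa θ i0 η (η i0) π) := by
  classical
  have h1 : ∀ π : Equiv.Perm σ, θ (π i0) (aa θ i0 η (η i0) π) =
      (Equiv.Perm.sign π : ℤ) • (∏ k, θ (π k) (η k)) +
      η i0 * ∑ k ∈ Finset.univ.erase i0, (Equiv.Perm.sign π : ℤ) • (θ (π i0) (θ (π k) (η k)) *
        ∏ l ∈ (Finset.univ.erase i0).erase k, θ (π l) (η l)) := by
    intro π
    unfold aa
    rw [map_zsmul, Derivation.leibniz, deriv_prod, smul_eq_mul, smul_eq_mul,
      ← Finset.mul_prod_erase Finset.univ (fun k => θ (π k) (η k)) (Finset.mem_univ i0),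
      ← Finset.smul_sum, smul_add, add_comm]
    congr 1
    · congr 1
      ring
    · rw [mul_smul_comm]
  have hZ : ∀ k ∈ Finset.univ.erase i0, ∑ π : Equiv.Perm σ,
      (Equiv.Perm.sign π : ℤ) • (θ (π i0) (θ (π k) (η k)) *
        ∏ l ∈ (Finset.univ.erase i0).erase k, θ (π l) (η l)) = 0 := by
    intro k hk
    have hki : k ≠ i0 := Finset.ne_of_mem_erase hk
    set F : Equiv.Perm σ → L := fun π => (Equiv.Perm.sign π : ℤ) • (θ (π i0) (θ (π k) (η k)) *
        ∏ l ∈ (Finset.univ.erase i0).erase k, θ (π l) (η l)) with hF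
    have h2 : ∑ π, F π = ∑ π, F (π * Equiv.swap i0 k) :=
      (Equiv.sum_comp (Equiv.mulRight (Equiv.swap i0 k)) F).symm
    have h3 : ∀ π, F (π * Equiv.swap i0 k) = - F π := by
      intro π
      rw [hF]
      simp only
      rw [Equiv.Perm.sign_mul, Equiv.Perm.sign_swap (fun h => hki h.symm)]
      simp only [Equiv.Perm.mul_apply, Equiv.swap_apply_left, Equiv.swap_apply_right]
      rw [hcomm (π k) (π i0)]
      have h4 : ∏ l ∈ (Finset.univ.erase i0).erase k, θ (π (Equiv.swap i0 k l)) (η l)
          = ∏ l ∈ (Finset.univ.erase i0).erase k, θ (π l) (η l) := by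
        refine Finset.prod_congr rfl fun l hl => ?_
        rw [Equiv.swap_apply_of_ne_of_ne
          (Finset.ne_of_mem_erase (Finset.mem_of_mem_erase hl)) (Finset.ne_of_mem_erase hl)]
      rw [h4]
      simp
    have h4 : ∑ π, F π = -∑ π, F π := by
      conv_lhs => rw [h2]
      rw [Finset.sum_congr rfl fun π _ => h3 π, Finset.sum_neg_distrib]
    have h5 : ∑ π, F π + ∑ π, F π = 0 := by
      nth_rewrite 1 [h4]
      exact neg_add_cancel _
    have h6 : (2 : ℂ) • ∑ π, F π = 0 := by rw [two_smul, h5]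
    have h7 : (2 : ℂ)⁻¹ • ((2 : ℂ) • ∑ π, F π) = ∑ π, F π := by
      rw [smul_smul, inv_mul_cancel₀ two_ne_zero, one_smul]
    rw [← h7, h6, smul_zero]
  rw [Finset.sum_congr rfl fun π _ => h1 π, Finset.sum_add_distrib, ← Finset.mul_sum,
    Finset.sum_comm, Finset.sum_eq_zero hZ, mul_zero, add_zero, Matrix.det_apply]
  refine Finset.sum_congr rfl fun π _ => ?_
  simp only [Matrix.of_apply]
  rfl

end Piola

theorem pderiv_comm {σ : Type} (i j : σ) (q : MvPowerSeries σ ℂ) :
    pderiv ℂ i (pderiv ℂ j q) = pderiv ℂ j (pderiv ℂ i q) := by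
  classical
  ext n
  simp only [coeff_pderiv]
  rw [add_right_comm]
  by_cases h : i = j
  · rw [h]
  · simp only [Finsupp.add_apply, Finsupp.single_apply, if_neg h, if_neg (Ne.symm h), add_zero]
    ring

variable {σ : Type} [Fintype σ] [DecidableEq σ]

/-- the identity behind the pull back -/
theorem beta_det {F : MvPowerSeries σ ℂ} {s : ℂ} {β : ℕ → MvPowerSeries σ ℂ →ₗ[ℂ] ℂ}
    (h : DR s F β) (k : ℕ) (i0 : σ) (η : σ → MvPowerSeries σ ℂ) :
    β k (Matrix.det (Matrix.of fun t l => pderiv ℂ t (η l))) + (s - k) * β (k + 1)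
      (Matrix.det (Matrix.of fun t l => if l = i0 then pderiv ℂ t F * η i0 else
        pderiv ℂ t (η l))) = 0 := by
  have h1 := det_eq (fun t => pderiv ℂ t) (fun a b u => pderiv_comm a b u) i0 η
  have h2 : Matrix.det (Matrix.of fun t l => if l = i0 then pderiv ℂ t F * η i0 else
        pderiv ℂ t (η l)) = ∑ π : Equiv.Perm σ, pderiv ℂ (π i0) F *
          aa (fun t => pderiv ℂ t) i0 η (η i0) π := by
    rw [Matrix.det_apply]
    refine Finset.sum_congr rfl fun π _ => ?_
    rw [← Finset.mul_prod_erase Finset.univ _ (Finset.mem_univ i0)]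
    simp only [Matrix.of_apply, if_true]
    unfold aa
    rw [mul_smul_comm, mul_assoc]
    congr 3
    refine Finset.prod_congr rfl fun l hl => ?_
    rw [if_neg (Finset.ne_of_mem_erase hl)]
  rw [h1, h2, map_sum, map_sum, Finset.mul_sum, ← Finset.sum_add_distrib]
  exact Finset.sum_eq_zero fun π _ => h.clo k _ _

theorem order_subst {Ψ : σ → MvPowerSeries σ ℂ} (hΨ : ∀ i, constantCoeff (Ψ i) = 0)
    (q : MvPowerSeries σ ℂ) : q.order ≤ (subst Ψ q).order := by
  have hs : HasSubst Ψ := hasSubst_of_constantCoeff_zero hΨ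
  refine MvPowerSeries.le_order fun d hd => ?_
  rw [coeff_subst hs]
  refine finsum_eq_zero_of_forall_eq_zero fun e => ?_
  by_cases he : (e.degree : ℕ∞) < q.order
  · rw [coeff_of_lt_order he, zero_smul]
  · rw [coeff_of_lt_order (f := e.prod fun s e => Ψ s ^ e) (d := d), smul_zero]
    refine lt_of_lt_of_le hd ((not_lt.1 he).trans ?_)
    rw [Finsupp.prod, Finsupp.degree_apply]
    refine le_trans ?_ (le_order_prod _ _)
    rw [Nat.cast_sum]
    exact Finset.sum_le_sum fun i _ => le_order_pow_of_constantCoeff_eq_zero _ (hΨ i)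

theorem t_PU : S_PU := by
  intro σ _ _ f F Ψ s β hΨ hf hβ
  have hs : HasSubst Ψ := hasSubst_of_constantCoeff_zero hΨ
  set Δ : MvPowerSeries σ ℂ := (Matrix.of fun l m => pderiv ℂ m (Ψ l)).det with hΔ
  have hΔ' : Δ = (Matrix.of fun m l => pderiv ℂ m (Ψ l)).det := by
    rw [hΔ, ← Matrix.det_transpose]
    rfl
  refine ⟨fun k => (β k).comp ((LinearMap.mulLeft ℂ Δ).comp (substAlgHom hs).toLinearMap),
    ⟨?_, ?_, ?_⟩, ?_⟩
  · intro k
    obtain ⟨N, hN⟩ := hβ.cts k
    refine ⟨N, fun q hq => ?_⟩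
    change β k (Δ * substAlgHom hs q) = 0
    rw [coe_substAlgHom]
    refine hN _ fun x hx => ?_
    apply coeff_of_lt_order
    refine lt_of_lt_of_le ?_ le_order_mul
    refine lt_of_lt_of_le ?_ le_add_self
    refine lt_of_lt_of_le ?_ (order_subst hΨ q)
    refine lt_of_lt_of_le (b := (N : ℕ∞)) ?_ (nat_le_order hq)
    exact_mod_cast hx
  · intro k q
    change β (k + 1) (Δ * substAlgHom hs (f * q)) = β k (Δ * substAlgHom hs q)
    rw [map_mul (substAlgHom hs), coe_substAlgHom, hf, mul_left_comm, hβ.sft]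
  · intro k i q
    change β k (Δ * substAlgHom hs (pderiv ℂ i q)) +
      (s - k) * β (k + 1) (Δ * substAlgHom hs (pderiv ℂ i f * q)) = 0
    rw [map_mul (substAlgHom hs), coe_substAlgHom]
    have h1 := beta_det hβ k i (fun l => if l = i then subst Ψ q else Ψ l)
    have hgen : ∀ (c : σ → MvPowerSeries σ ℂ) (v : σ → MvPowerSeries σ ℂ),
        (∀ m, v m = ∑ l, c l * pderiv ℂ m (Ψ l)) →
        (Matrix.of fun m l => if l = i then v m else pderiv ℂ m (Ψ l)).det = c i * Δ := by
      intro c v hv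
      rw [hΔ', ← Matrix.det_transpose, ← Matrix.det_transpose (Matrix.of _)]
      have h2 := Matrix.det_updateRow_sum (Matrix.of fun l m => pderiv ℂ m (Ψ l)) i c
      rw [smul_eq_mul] at h2
      have h3 : (Matrix.of fun m l => pderiv ℂ m (Ψ l)).transpose =
          Matrix.of fun l m => pderiv ℂ m (Ψ l) := rfl
      rw [h3, ← h2]
      congr 1
      ext1 l m
      rw [Matrix.transpose_apply, Matrix.of_apply, Matrix.updateRow_apply]
      by_cases hl : l = i
      · rw [if_pos hl, if_pos hl, hv, Finset.sum_apply]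
        rfl
      · rw [if_neg hl, if_neg hl]
        rfl
    have h2 : (Matrix.of fun t l => pderiv ℂ t (if l = i then subst Ψ q else Ψ l)).det =
        subst Ψ (pderiv ℂ i q) * Δ := by
      rw [← hgen (fun l => subst Ψ (pderiv ℂ l q)) (fun m => pderiv ℂ m (subst Ψ q))
        (fun m => Pool.Agent.W574.SM.pderiv_subst hs q m)]
      congr 1
      ext1 t l
      rw [Matrix.of_apply, Matrix.of_apply]
      split_ifs <;> rfl
    have h3 : (Matrix.of fun t l => if l = i then pderiv ℂ t F *
        (if i = i then subst Ψ q else Ψ i) else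
        pderiv ℂ t (if l = i then subst Ψ q else Ψ l)).det =
        (subst Ψ (pderiv ℂ i f) * subst Ψ q) * Δ := by
      rw [← hgen (fun l => subst Ψ (pderiv ℂ l f) * subst Ψ q)
        (fun m => pderiv ℂ m F * subst Ψ q) (fun m => by
          rw [← hf, Pool.Agent.W574.SM.pderiv_subst hs f m, Finset.sum_mul]
          exact Finset.sum_congr rfl fun l _ => by ring)]
      congr 1
      ext1 t l
      rw [Matrix.of_apply, Matrix.of_apply]
      by_cases hl : l = i
      · rw [if_pos hl, if_pos hl, if_pos rfl]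
      · rw [if_neg hl, if_neg hl, if_neg hl]
    rw [h2, h3] at h1
    rw [mul_comm Δ, mul_comm Δ]
    exact h1
  · intro k q
    change β k (Δ * substAlgHom hs q) = _
    rw [coe_substAlgHom]

end Pool.Agent.J4H73.YO
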