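import Mathlib

set_option autoImplicit false
set_option linter.unusedSectionVars false

/-! # Slices of power series (for the jobs SU and LM of helper50) -/

namespace Pool.Agent.J4H73.YO

open MvPowerSeries Finset.HasAntidiagonal

section General

variable {σ ρ : Type}

theorem coeff_rename_mul [DecidableEq σ] (e : σ → ρ) (he : Function.Injective e)
    [Filter.TendstoCofinite e]
    (f : MvPowerSeries σ ℂ) (q : MvPowerSeries ρ ℂ) (n : ρ →₀ ℕ) :
    coeff n (rename e f * q) =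
      ∑ p ∈ antidiagonal (n.comapDomain e he.injOn), coeff p.1 f *
        coeff (n - p.1.mapDomain e) q := by
  classical
  rw [coeff_mul]
  symm
  refine Finset.sum_of_injOn (fun p => (p.1.mapDomain e, n - p.1.mapDomain e)) ?_ ?_ ?_ ?_
  · rintro ⟨a, b⟩ hp ⟨a', b'⟩ hp' h
    rw [Prod.mk.injEq] at h
    have h1 : a = a' := Finsupp.mapDomain_injective he h.1
    subst h1
    have h2 := mem_antidiagonal.1 (Finset.mem_coe.1 hp)
    have h3 := mem_antidiagonal.1 (Finset.mem_coe.1 hp')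
    rw [Prod.mk.injEq]
    refine ⟨rfl, ?_⟩
    have h2 : a + b = n.comapDomain e he.injOn := h2
    have h3 : a + b' = n.comapDomain e he.injOn := h3
    exact add_left_cancel (h2.trans h3.symm)
  · rintro ⟨a, b⟩ hp
    have h2 : a + b = n.comapDomain e he.injOn := mem_antidiagonal.1 (Finset.mem_coe.1 hp)
    refine Finset.mem_coe.2 (mem_antidiagonal.2 ?_)
    refine add_tsub_cancel_of_le ?_
    intro i
    by_cases hi : i ∈ Set.range e
    · obtain ⟨j, rfl⟩ := hi
      have h3 := DFunLike.congr_fun h2 j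
      rw [Finsupp.add_apply, Finsupp.comapDomain_apply] at h3
      change a.mapDomain e (e j) ≤ n (e j)
      rw [Finsupp.mapDomain_apply he]
      omega
    · rw [Finsupp.mapDomain_of_notMem_range _ _ hi]
      exact Nat.zero_le _
  · rintro ⟨a, b⟩ hab hnot
    have h1 : a + b = n := mem_antidiagonal.1 hab
    by_cases ha : a ∈ Set.range (Finsupp.mapDomain e)
    · exfalso
      obtain ⟨c, rfl⟩ := ha
      apply hnot
      refine ⟨(c, n.comapDomain e he.injOn - c), ?_, ?_⟩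
      · refine Finset.mem_coe.2 (mem_antidiagonal.2 (add_tsub_cancel_of_le ?_))
        intro j
        rw [Finsupp.comapDomain_apply, ← h1]
        change c j ≤ c.mapDomain e (e j) + b (e j)
        rw [Finsupp.mapDomain_apply he]
        omega
      · rw [Prod.mk.injEq]
        refine ⟨rfl, ?_⟩
        rw [← h1]
        exact add_tsub_cancel_left _ _
    · rw [coeff_rename_eq_zero _ _ ha, zero_mul]
  · rintro ⟨a, b⟩ hp
    congr 1
    rw [coeff_rename, Finset.sum_eq_single a]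
    · intro c hc hne
      rw [Set.Finite.mem_toFinset] at hc
      exact absurd (Finsupp.mapDomain_injective he hc) hne
    · intro h
      exfalso
      apply h
      rw [Set.Finite.mem_toFinset]
      rfl

end General

section Sum

variable {σ τ : Type}

theorem comap_inl (x : σ →₀ ℕ) (y : τ →₀ ℕ) (h) :
    (x.sumElim y).comapDomain (Sum.inl : σ → σ ⊕ τ) h = x := by
  ext i
  rw [Finsupp.comapDomain_apply, Finsupp.sumElim_inl]

theorem comap_inr (x : σ →₀ ℕ) (y : τ →₀ ℕ) (h) :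
    (x.sumElim y).comapDomain (Sum.inr : τ → σ ⊕ τ) h = y := by
  ext i
  rw [Finsupp.comapDomain_apply, Finsupp.sumElim_inr]

theorem map_inl (x : σ →₀ ℕ) : x.mapDomain (Sum.inl : σ → σ ⊕ τ) = x.sumElim 0 := by
  ext i
  rcases i with i | i
  · rw [Finsupp.mapDomain_apply Sum.inl_injective, Finsupp.sumElim_inl]
  · rw [Finsupp.mapDomain_of_notMem_range _ _ (by rintro ⟨j, hj⟩; exact Sum.inl_ne_inr hj),
      Finsupp.sumElim_inr]
    rfl

theorem map_inr (y : τ →₀ ℕ) : y.mapDomain (Sum.inr : τ → σ ⊕ τ) =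
    (0 : σ →₀ ℕ).sumElim y := by
  ext i
  rcases i with i | i
  · rw [Finsupp.mapDomain_of_notMem_range _ _ (by rintro ⟨j, hj⟩; exact Sum.inr_ne_inl hj),
      Finsupp.sumElim_inl]
    rfl
  · rw [Finsupp.mapDomain_apply Sum.inr_injective, Finsupp.sumElim_inr]

/-- the slice of a power series in `x, y` -/
def sl (x : σ →₀ ℕ) : MvPowerSeries (σ ⊕ τ) ℂ →ₗ[ℂ] MvPowerSeries τ ℂ where
  toFun q := fun y => coeff (x.sumElim y) q
  map_add' _ _ := by
    funext y
    exact map_add _ _ _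
  map_smul' c q := by
    funext y
    exact map_smul (coeff (x.sumElim y)) c q

theorem coeff_sl (x : σ →₀ ℕ) (y : τ →₀ ℕ) (q : MvPowerSeries (σ ⊕ τ) ℂ) :
    coeff y (sl x q) = coeff (x.sumElim y) q := rfl

theorem ext_sl {q q' : MvPowerSeries (σ ⊕ τ) ℂ} (h : ∀ x, sl x q = sl x q') : q = q' := by
  ext n
  have h1 : (n.comapDomain Sum.inl Sum.inl_injective.injOn).sumElim
      (n.comapDomain Sum.inr Sum.inr_injective.injOn) = n := by
    ext i
    rcases i with i | i
    · rw [Finsupp.sumElim_inl, Finsupp.comapDomain_apply]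
    · rw [Finsupp.sumElim_inr, Finsupp.comapDomain_apply]
  rw [← h1, ← coeff_sl, h, coeff_sl]

theorem sl_inr (x : σ →₀ ℕ) (g : MvPowerSeries τ ℂ) (q : MvPowerSeries (σ ⊕ τ) ℂ)
    [Filter.TendstoCofinite (Sum.inr : τ → σ ⊕ τ)] :
    sl x (rename Sum.inr g * q) = g * sl x q := by
  classical
  ext y
  rw [coeff_sl, coeff_rename_mul _ Sum.inr_injective, coeff_mul, comap_inr]
  refine Finset.sum_congr rfl fun p hp => ?_
  rw [coeff_sl]
  have h1 : (x.sumElim y : σ ⊕ τ →₀ ℕ) - p.1.mapDomain Sum.inr = x.sumElim p.2 := by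
    rw [map_inr]
    have h2 := mem_antidiagonal.1 hp
    ext i
    rcases i with i | i
    · rw [Finsupp.tsub_apply, Finsupp.sumElim_inl, Finsupp.sumElim_inl, Finsupp.sumElim_inl]
      rfl
    · rw [Finsupp.tsub_apply, Finsupp.sumElim_inr, Finsupp.sumElim_inr, Finsupp.sumElim_inr, ← h2,
        Finsupp.add_apply, Nat.add_sub_cancel_left]
  rw [h1]

theorem sl_inl (x : σ →₀ ℕ) (f : MvPowerSeries σ ℂ) (q : MvPowerSeries (σ ⊕ τ) ℂ)
    [DecidableEq σ] [Filter.TendstoCofinite (Sum.inl : σ → σ ⊕ τ)] :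
    sl x (rename Sum.inl f * q) = ∑ p ∈ antidiagonal x, coeff p.1 f • sl p.2 q := by
  ext y
  rw [coeff_sl, coeff_rename_mul _ Sum.inl_injective, map_sum, comap_inl]
  refine Finset.sum_congr rfl fun p hp => ?_
  rw [map_smul, coeff_sl, smul_eq_mul]
  have h1 : (x.sumElim y : σ ⊕ τ →₀ ℕ) - p.1.mapDomain Sum.inl = p.2.sumElim y := by
    rw [map_inl]
    have h2 := mem_antidiagonal.1 hp
    ext i
    rcases i with i | i
    · rw [Finsupp.tsub_apply, Finsupp.sumElim_inl, Finsupp.sumElim_inl, Finsupp.sumElim_inl, ← h2,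
        Finsupp.add_apply, Nat.add_sub_cancel_left]
    · rw [Finsupp.tsub_apply, Finsupp.sumElim_inr, Finsupp.sumElim_inr, Finsupp.sumElim_inr]
      rfl
  rw [h1]

theorem sl_pderiv_inr (x : σ →₀ ℕ) (j : τ) (q : MvPowerSeries (σ ⊕ τ) ℂ) :
    sl x (pderiv ℂ (Sum.inr j) q) = pderiv ℂ j (sl x q) := by
  ext y
  rw [coeff_sl, coeff_pderiv, coeff_pderiv, coeff_sl, Finsupp.sumElim_inr]
  congr 3
  ext i
  rcases i with i | i
  · simp
  · classical
    simp only [Finsupp.add_apply, Finsupp.sumElim_inr, Finsupp.single_apply, Sum.inr.injEq]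

theorem sl_pderiv_inl (x : σ →₀ ℕ) (j : σ) (q : MvPowerSeries (σ ⊕ τ) ℂ) :
    sl x (pderiv ℂ (Sum.inl j) q) = ((x j : ℂ) + 1) • sl (x + Finsupp.single j 1) q := by
  ext y
  rw [coeff_sl, coeff_pderiv, map_smul, coeff_sl, Finsupp.sumElim_inl, smul_eq_mul, mul_comm]
  congr 3
  ext i
  rcases i with i | i
  · classical
    simp only [Finsupp.add_apply, Finsupp.sumElim_inl, Finsupp.single_apply, Sum.inl.injEq]
  · simp

/-- apply a functional to the slices -/
def push (b : MvPowerSeries τ ℂ →ₗ[ℂ] ℂ) : MvPowerSeries (σ ⊕ τ) ℂ →ₗ[ℂ] MvPowerSeries σ ℂ where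
  toFun q := fun x => b (sl x q)
  map_add' q q' := by
    funext x
    change b (sl x (q + q')) = b (sl x q) + b (sl x q')
    rw [map_add, map_add]
  map_smul' c q := by
    funext x
    change b (sl x (c • q)) = c • b (sl x q)
    rw [map_smul, map_smul]

theorem coeff_push (b : MvPowerSeries τ ℂ →ₗ[ℂ] ℂ) (x : σ →₀ ℕ) (q : MvPowerSeries (σ ⊕ τ) ℂ) :
    coeff x (push b q) = b (sl x q) := rfl

theorem push_inl (b : MvPowerSeries τ ℂ →ₗ[ℂ] ℂ) (f : MvPowerSeries σ ℂ)
    (q : MvPowerSeries (σ ⊕ τ) ℂ) [Filter.TendstoCofinite (Sum.inl : σ → σ ⊕ τ)] :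
    push b (rename Sum.inl f * q) = f * push b q := by
  classical
  ext x
  rw [coeff_push, sl_inl, map_sum, coeff_mul]
  exact Finset.sum_congr rfl fun p _ => by rw [map_smul, coeff_push, smul_eq_mul]

theorem push_inr (b b' : MvPowerSeries τ ℂ →ₗ[ℂ] ℂ) (g : MvPowerSeries τ ℂ)
    (hb : ∀ r, b (g * r) = b' r)
    (q : MvPowerSeries (σ ⊕ τ) ℂ) [Filter.TendstoCofinite (Sum.inr : τ → σ ⊕ τ)] :
    push b (rename Sum.inr g * q) = push b' q := by
  ext x
  rw [coeff_push, coeff_push, sl_inr, hb]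

theorem push_pderiv_inl (b : MvPowerSeries τ ℂ →ₗ[ℂ] ℂ) (i : σ) (q : MvPowerSeries (σ ⊕ τ) ℂ) :
    push b (pderiv ℂ (Sum.inl i) q) = pderiv ℂ i (push b q) := by
  ext x
  rw [coeff_push, sl_pderiv_inl, map_smul, coeff_pderiv, coeff_push, smul_eq_mul, mul_comm]

theorem push_pderiv_inr (b b' : MvPowerSeries τ ℂ →ₗ[ℂ] ℂ) (i : τ)
    (hb : ∀ r, b (pderiv ℂ i r) = b' r) (q : MvPowerSeries (σ ⊕ τ) ℂ) :
    push b (pderiv ℂ (Sum.inr i) q) = push b' q := by
  ext x
  rw [coeff_push, coeff_push, sl_pderiv_inr, hb]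

theorem push_add (b b' : MvPowerSeries τ ℂ →ₗ[ℂ] ℂ) (q : MvPowerSeries (σ ⊕ τ) ℂ) :
    push (b + b') q = push b q + push b' q := by
  ext x
  rfl

theorem push_smul (c : ℂ) (b : MvPowerSeries τ ℂ →ₗ[ℂ] ℂ) (q : MvPowerSeries (σ ⊕ τ) ℂ) :
    push (c • b) q = c • push b q := by
  ext x
  rfl

end Sum

end Pool.Agent.J4H73.YO
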