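import Pool.Agent.J4H50.YO.Stm
import Pool.Agent.W574.SM.Chain
import Pool.Agent.J4H73.YO.Sl

set_option autoImplicit false
set_option linter.unusedSectionVars false

/-! # Thom-Sebastiani sums of de Rham functionals (job SU of helper50) -/

namespace Pool.Agent.J4H73.YO

open MvPowerSeries Finset.HasAntidiagonal Pool.Agent.J4H50.YO

/-- `s (s - 1) ⋯ (s - k + 1)` -/
noncomputable def fall (s : ℂ) (k : ℕ) : ℂ := ∏ i ∈ Finset.range k, (s - i)

theorem fall_zero (s : ℂ) : fall s 0 = 1 := Finset.prod_range_zero _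

theorem fall_succ (s : ℂ) (k : ℕ) : fall s (k + 1) = fall s k * (s - k) := Finset.prod_range_succ _ _

theorem fall_ne {s : ℂ} (hs : ∀ m : ℕ, s ≠ m) (k : ℕ) : fall s k ≠ 0 :=
  Finset.prod_ne_zero_iff.2 fun i _ => sub_ne_zero.2 (hs i)

variable {σ τ : Type}

theorem pderiv_rename_inl [Filter.TendstoCofinite (Sum.inl : σ → σ ⊕ τ)] (i : σ)
    (f : MvPowerSeries σ ℂ) :
    pderiv ℂ (Sum.inl i : σ ⊕ τ) (rename Sum.inl f) = rename Sum.inl (pderiv ℂ i f) := by
  classical
  have h0 : ∀ (h : MvPowerSeries σ ℂ) (x : σ →₀ ℕ) (y : τ →₀ ℕ),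
      coeff (x.sumElim y) (rename (Sum.inl : σ → σ ⊕ τ) h) = if y = 0 then coeff x h else 0 := by
    intro h x y
    have h1 := coeff_rename_mul (Sum.inl : σ → σ ⊕ τ) Sum.inl_injective h 1 (x.sumElim y)
    rw [mul_one, comap_inl] at h1
    rw [h1]
    have h2 : ∀ p ∈ antidiagonal x, coeff p.1 h *
        coeff ((x.sumElim y : σ ⊕ τ →₀ ℕ) - p.1.mapDomain Sum.inl) 1 =
        coeff p.1 h * (if p.2.sumElim y = (0 : σ ⊕ τ →₀ ℕ) then 1 else 0) := by
      intro p hp
      have h3 : (x.sumElim y : σ ⊕ τ →₀ ℕ) - p.1.mapDomain Sum.inl = p.2.sumElim y := by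
        rw [map_inl]
        have h2 := mem_antidiagonal.1 hp
        ext i
        rcases i with i | i
        · rw [Finsupp.tsub_apply, Finsupp.sumElim_inl, Finsupp.sumElim_inl, Finsupp.sumElim_inl,
            ← h2, Finsupp.add_apply, Nat.add_sub_cancel_left]
        · rw [Finsupp.tsub_apply, Finsupp.sumElim_inr, Finsupp.sumElim_inr, Finsupp.sumElim_inr]
          rfl
      rw [h3, coeff_one]
    rw [Finset.sum_congr rfl h2]
    have h4 : ∀ (u : σ →₀ ℕ), u.sumElim y = (0 : σ ⊕ τ →₀ ℕ) ↔ u = 0 ∧ y = 0 := by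
      intro u
      constructor
      · intro h
        constructor
        · ext i
          exact DFunLike.congr_fun h (Sum.inl i)
        · ext i
          exact DFunLike.congr_fun h (Sum.inr i)
      · rintro ⟨rfl, rfl⟩
        exact Finsupp.sumElim_zero_zero
    split_ifs with hy
    · rw [Finset.sum_eq_single (x, 0)]
      · rw [if_pos ((h4 0).2 ⟨rfl, hy⟩), mul_one]
      · intro p hp hne
        rw [if_neg, mul_zero]
        intro h5
        apply hne
        have h6 := ((h4 _).1 h5).1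
        have h7 := mem_antidiagonal.1 hp
        rw [h6, add_zero] at h7
        exact Prod.ext h7 h6
      · intro h5
        exact absurd (mem_antidiagonal.2 (add_zero x)) h5
    · refine Finset.sum_eq_zero fun p _ => ?_
      rw [if_neg, mul_zero]
      intro h5
      exact hy ((h4 _).1 h5).2
  refine ext_sl fun x => ?_
  ext y
  rw [coeff_sl, coeff_sl, coeff_pderiv, h0, coeff_pderiv, Finsupp.sumElim_inl]
  have h1 : (x.sumElim y : σ ⊕ τ →₀ ℕ) + Finsupp.single (Sum.inl i) 1 =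
      (x + Finsupp.single i 1).sumElim y := by
    ext j
    rcases j with j | j
    · simp only [Finsupp.add_apply, Finsupp.sumElim_inl, Finsupp.single_apply, Sum.inl.injEq]
    · simp
  rw [h1, h0]
  split_ifs
  · rfl
  · rw [zero_mul]

theorem pderiv_rename_inl_inr [Filter.TendstoCofinite (Sum.inl : σ → σ ⊕ τ)] (i : τ)
    (f : MvPowerSeries σ ℂ) :
    pderiv ℂ (Sum.inr i : σ ⊕ τ) (rename Sum.inl f) = 0 := by
  ext n
  rw [coeff_pderiv, coeff_rename_eq_zero, zero_mul, coeff_zero]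
  rintro ⟨x, hx⟩
  rw [map_inl] at hx
  have h1 := DFunLike.congr_fun hx (Sum.inr i)
  rw [Finsupp.sumElim_inr, Finsupp.add_apply, Finsupp.single_eq_same] at h1
  have h2 : (0 : ℕ) = n (Sum.inr i) + 1 := h1
  omega

/-- the exchange of the two groups of variables -/
theorem pderiv_rename_inr [Filter.TendstoCofinite (Sum.inr : τ → σ ⊕ τ)] (i : τ)
    (g : MvPowerSeries τ ℂ) :
    pderiv ℂ (Sum.inr i : σ ⊕ τ) (rename Sum.inr g) = rename Sum.inr (pderiv ℂ i g) := by
  classical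
  refine ext_sl fun x => ?_
  have h0 : ∀ h : MvPowerSeries τ ℂ, sl x (rename (Sum.inr : τ → σ ⊕ τ) h) = h * sl x 1 := by
    intro h
    rw [← sl_inr, mul_one]
  rw [sl_pderiv_inr, h0, h0]
  have h1 : sl x (1 : MvPowerSeries (σ ⊕ τ) ℂ) = C (if x = 0 then 1 else 0) := by
    ext y
    rw [coeff_sl, coeff_one, coeff_C]
    have h4 : x.sumElim y = (0 : σ ⊕ τ →₀ ℕ) ↔ y = 0 ∧ x = 0 := by
      constructor
      · intro h
        constructor
        · ext i
          exact DFunLike.congr_fun h (Sum.inr i)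
        · ext i
          exact DFunLike.congr_fun h (Sum.inl i)
      · rintro ⟨rfl, rfl⟩
        exact Finsupp.sumElim_zero_zero
    by_cases hy : y = 0
    · rw [if_pos hy]
      exact if_congr (h4.trans (and_iff_right hy)) rfl rfl
    · rw [if_neg hy, if_neg (fun h => hy (h4.1 h).1)]
  rw [h1, Derivation.leibniz, pderiv_C, smul_zero, zero_add, smul_eq_mul, mul_comm]

theorem pderiv_rename_inr_inl [Filter.TendstoCofinite (Sum.inr : τ → σ ⊕ τ)] (i : σ)
    (g : MvPowerSeries τ ℂ) :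
    pderiv ℂ (Sum.inl i : σ ⊕ τ) (rename Sum.inr g) = 0 := by
  ext n
  rw [coeff_pderiv, coeff_rename_eq_zero, zero_mul, coeff_zero]
  rintro ⟨x, hx⟩
  rw [map_inr] at hx
  have h1 := DFunLike.congr_fun hx (Sum.inl i)
  rw [Finsupp.sumElim_inl, Finsupp.add_apply, Finsupp.single_eq_same] at h1
  have h2 : (0 : ℕ) = n (Sum.inl i) + 1 := h1
  omega

theorem Sing.cc {f : MvPowerSeries σ ℂ} (h : Sing f) : constantCoeff f = 0 := by
  rw [← coeff_zero_eq_constantCoeff_apply]
  exact h 0 (by rw [map_zero]; exact Nat.zero_le _)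

theorem Sing.pd {f : MvPowerSeries σ ℂ} (h : Sing f) (i : σ) :
    constantCoeff (pderiv ℂ i f) = 0 := by
  rw [← coeff_zero_eq_constantCoeff_apply, coeff_pderiv, zero_add, h, zero_mul]
  rw [Finsupp.degree_single]

theorem t_SU : S_SU := by
  classical
  intro σ τ _ _ f g s₁ s₂ hs hf hg ⟨α, hα, hα0⟩ ⟨β, hβ, hβ0⟩
  set s := s₁ + s₂ with hsdef
  let T : (MvPowerSeries σ ℂ →ₗ[ℂ] ℂ) → (MvPowerSeries τ ℂ →ₗ[ℂ] ℂ) →
      MvPowerSeries (σ ⊕ τ) ℂ →ₗ[ℂ] ℂ := fun a b => a.comp (push b)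
  have hT : ∀ a b q, T a b q = a (push b q) := fun _ _ _ => rfl
  let γ : ℕ → MvPowerSeries (σ ⊕ τ) ℂ →ₗ[ℂ] ℂ := fun k => (fall s k)⁻¹ •
    ∑ p ∈ antidiagonal k, (fall s₁ p.1 * fall s₂ p.2) • T (α p.1) (β p.2)
  have hγ : ∀ k q, γ k q = (fall s k)⁻¹ *
      ∑ p ∈ antidiagonal k, (fall s₁ p.1 * fall s₂ p.2) * T (α p.1) (β p.2) q := by
    intro k q
    change (fall s k)⁻¹ • (∑ p ∈ antidiagonal k, (fall s₁ p.1 * fall s₂ p.2) •
      T (α p.1) (β p.2)) q = _
    rw [LinearMap.sum_apply, smul_eq_mul]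
    rfl
  -- the basic identities
  have f0 : ∀ l q, T (α 0) (β l) (rename Sum.inl f * q) = 0 := by
    intro l q
    rw [hT, push_inl, hα0, map_mul, Sing.cc hf, zero_mul]
  have f1 : ∀ j l q, T (α (j + 1)) (β l) (rename Sum.inl f * q) = T (α j) (β l) q := by
    intro j l q
    rw [hT, push_inl, hα.sft, hT]
  have g0 : ∀ j q, T (α j) (β 0) (rename Sum.inr g * q) = 0 := by
    intro j q
    rw [hT, push_inr (β 0) 0 g (fun r => by
      rw [hβ0, map_mul, Sing.cc hg, zero_mul]; rfl)]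
    have h1 : push (0 : MvPowerSeries τ ℂ →ₗ[ℂ] ℂ) q = 0 := by
      ext x
      rfl
    rw [h1, map_zero]
  have g1 : ∀ j l q, T (α j) (β (l + 1)) (rename Sum.inr g * q) = T (α j) (β l) q := by
    intro j l q
    rw [hT, push_inr (β (l + 1)) (β l) g (fun r => hβ.sft l r), hT]
  have fd0 : ∀ l i q, T (α 0) (β l) (rename Sum.inl (pderiv ℂ i f) * q) = 0 := by
    intro l i q
    rw [hT, push_inl, hα0, map_mul, Sing.pd hf, zero_mul]
  have fd1 : ∀ j l i q, T (α j) (β l) (pderiv ℂ (Sum.inl i) q) =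
      -((s₁ - j) * T (α (j + 1)) (β l) (rename Sum.inl (pderiv ℂ i f) * q)) := by
    intro j l i q
    rw [hT, push_pderiv_inl, hT, push_inl]
    exact eq_neg_of_add_eq_zero_left (hα.clo j i _)
  have gd0 : ∀ j i q, T (α j) (β 0) (rename Sum.inr (pderiv ℂ i g) * q) = 0 := by
    intro j i q
    rw [hT, push_inr (β 0) 0 (pderiv ℂ i g) (fun r => by
      rw [hβ0, map_mul, Sing.pd hg, zero_mul]; rfl)]
    have h1 : push (0 : MvPowerSeries τ ℂ →ₗ[ℂ] ℂ) q = 0 := by
      ext x
      rfl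
    rw [h1, map_zero]
  have gd1 : ∀ j l i q, T (α j) (β l) (pderiv ℂ (Sum.inr i) q) =
      -((s₂ - l) * T (α j) (β (l + 1)) (rename Sum.inr (pderiv ℂ i g) * q)) := by
    intro j l i q
    have h1 : ∀ r, (β l) (pderiv ℂ i r) =
        (-(s₂ - l)) * (β (l + 1)) (pderiv ℂ i g * r) := by
      intro r
      rw [neg_mul]
      exact eq_neg_of_add_eq_zero_left (hβ.clo l i r)
    have h2 : push (β l) (pderiv ℂ (Sum.inr i : σ ⊕ τ) q) =
        (-(s₂ - l)) • push (β (l + 1)) (rename Sum.inr (pderiv ℂ i g) * q) := by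
      ext x
      rw [coeff_push, sl_pderiv_inr, h1, map_smul, coeff_push, sl_inr, smul_eq_mul]
    rw [hT, h2, map_smul, smul_eq_mul, neg_mul, hT]
  refine ⟨γ, ⟨?_, ?_, ?_⟩, ?_⟩
  · -- continuity
    intro k
    choose N hN using hα.cts
    choose M hM using hβ.cts
    refine ⟨∑ p ∈ antidiagonal k, (N p.1 + M p.2), fun q hq => ?_⟩
    rw [hγ, Finset.sum_eq_zero, mul_zero]
    intro p hp
    have h1 : N p.1 + M p.2 ≤ ∑ p ∈ antidiagonal k, (N p.1 + M p.2) :=
      Finset.single_le_sum (f := fun p : ℕ × ℕ => N p.1 + M p.2) (fun _ _ => Nat.zero_le _) hp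
    rw [hT, hN, mul_zero]
    intro x hx
    rw [coeff_push, hM]
    intro y hy
    rw [coeff_sl]
    apply hq
    have h2 : (x.sumElim y : σ ⊕ τ →₀ ℕ).degree = x.degree + y.degree := by
      rw [Finsupp.sumElim_eq_add, map_add, Finsupp.degree_mapDomain, Finsupp.degree_mapDomain]
    rw [h2]
    omega
  · -- shift
    intro k q
    rw [hγ, hγ]
    have h1 : ∀ p : ℕ × ℕ, (fall s₁ p.1 * fall s₂ p.2) * T (α p.1) (β p.2)
        ((rename Sum.inl f + rename Sum.inr g) * q) =
        (fall s₁ p.1 * fall s₂ p.2) * T (α p.1) (β p.2) (rename Sum.inl f * q) +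
        (fall s₁ p.1 * fall s₂ p.2) * T (α p.1) (β p.2) (rename Sum.inr g * q) := by
      intro p
      rw [add_mul, map_add, mul_add]
    rw [Finset.sum_congr rfl fun p _ => h1 p, Finset.sum_add_distrib,
      Finset.Nat.sum_antidiagonal_succ, Finset.Nat.sum_antidiagonal_succ', f0, g0, mul_zero,
      mul_zero, zero_add, zero_add, ← Finset.sum_add_distrib]
    have h2 : ∀ p ∈ antidiagonal k,
        (fall s₁ (p.1 + 1) * fall s₂ p.2 * T (α (p.1 + 1)) (β p.2) (rename Sum.inl f * q) +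
        fall s₁ p.1 * fall s₂ (p.2 + 1) * T (α p.1) (β (p.2 + 1)) (rename Sum.inr g * q)) =
        (s - k) * ((fall s₁ p.1 * fall s₂ p.2) * T (α p.1) (β p.2) q) := by
      intro p hp
      have h3 : (k : ℂ) = p.1 + p.2 := by
        rw [← mem_antidiagonal.1 hp, Nat.cast_add]
      rw [f1, g1, fall_succ, fall_succ, h3, hsdef]
      ring
    rw [Finset.sum_congr rfl h2, ← Finset.mul_sum, fall_succ, ← mul_assoc]
    congr 1
    have h3 : s - k ≠ 0 := sub_ne_zero.2 (hs k)
    rw [mul_inv, mul_assoc, inv_mul_cancel₀ h3, mul_one]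
  · -- closed
    intro k i q
    rw [hγ, hγ]
    have h3 : s - k ≠ 0 := sub_ne_zero.2 (hs k)
    have h4 : (s - k) * ((fall s (k + 1))⁻¹) = (fall s k)⁻¹ := by
      rw [fall_succ, mul_inv, mul_left_comm, mul_inv_cancel₀ h3, mul_one]
    rw [← mul_assoc, h4, ← mul_add]
    apply mul_eq_zero_of_right
    rcases i with i | i
    · rw [map_add, pderiv_rename_inl, pderiv_rename_inr_inl, add_zero,
        Finset.Nat.sum_antidiagonal_succ, fd0, mul_zero, zero_add, ← Finset.sum_add_distrib]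
      refine Finset.sum_eq_zero fun p _ => ?_
      rw [fd1, fall_succ]
      ring
    · rw [map_add, pderiv_rename_inl_inr, pderiv_rename_inr, zero_add,
        Finset.Nat.sum_antidiagonal_succ', gd0, mul_zero, zero_add, ← Finset.sum_add_distrib]
      refine Finset.sum_eq_zero fun p _ => ?_
      rw [gd1, fall_succ]
      ring
  · intro q
    rw [hγ, Finset.Nat.antidiagonal_zero, Finset.sum_singleton, fall_zero, fall_zero, fall_zero, inv_one,
      one_mul, one_mul, one_mul, hT, hα0, ← coeff_zero_eq_constantCoeff_apply, coeff_push, hβ0,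
      ← coeff_zero_eq_constantCoeff_apply, coeff_sl, Finsupp.sumElim_zero_zero,
      coeff_zero_eq_constantCoeff_apply]

end Pool.Agent.J4H73.YO
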